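import Pool.Agent.LE.StmtsC
import Pool.Agent.Helper59_LE.Gev1
import Pool.Agent.Helper42_LE.OneT
import Pool.Agent.Helper54_LE.FMN

/-!
# REG: regularity has probability near one, uniformly in the parameters
-/

set_option autoImplicit false

open MeasureTheory ProbabilityTheory Function Filter

open scoped ENNReal BigOperators Topology

noncomputable section

namespace Pool.Agent.LE.H76C

open Pool.Agent.Anderson Pool.Agent.Loc Pool.Agent.Helper54.Bal Pool.Agent.Helper96.EXP
  Pool.Agent.LE.H96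

variable {d : ℕ}

/-- the diagonal: Markov's inequality of order `4 d` -/
theorem diag_tail {σ E C t : ℝ} {N : ℕ} {x : Site d} (hC : 0 < C) (ht : 0 < t)
    (hm : Measurable fun V => DL (box 0 N) E V x x)
    (hU : ∫⁻ V, (mx V N E x 1) ^ (4 * d) ∂(PP d (gl σ)) ≤ ENNReal.ofReal (C ^ (4 * d))) :
    PP d (gl σ) {V | t < DL (box 0 N) E V x x} ≤ ENNReal.ofReal ((C / t) ^ (4 * d)) := by
  set f : (Site d → ℝ) → ℝ≥0∞ := fun V => ENNReal.ofReal (DL (box 0 N) E V x x) ^ (4 * d) with hf
  have hfm : Measurable f := (hm.ennreal_ofReal).pow_const _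
  have h1 : ∫⁻ V, f V ∂(PP d (gl σ)) ≤ ENNReal.ofReal (C ^ (4 * d)) := by
    refine le_trans (lintegral_mono fun V => ?_) hU
    refine pow_le_pow_left' ?_ _
    unfold mx
    exact Finset.le_sup (f := fun s => ENNReal.ofReal (DL (box 0 N) E V x s))
      (mem_box.2 (by rw [sd_self]; omega))
  have h2 := mul_meas_ge_le_lintegral (μ := PP d (gl σ)) hfm (ENNReal.ofReal (t ^ (4 * d)))
  have h3 : {V | t < DL (box 0 N) E V x x} ⊆ {V | ENNReal.ofReal (t ^ (4 * d)) ≤ f V} := by
    intro V hV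
    rw [Set.mem_ofPred_eq] at hV ⊢
    rw [ENNReal.ofReal_pow ht.le]
    exact pow_le_pow_left' (ENNReal.ofReal_le_ofReal hV.le) _
  have h4 : ENNReal.ofReal (t ^ (4 * d)) * PP d (gl σ) {V | t < DL (box 0 N) E V x x} ≤
      ENNReal.ofReal (C ^ (4 * d)) :=
    (mul_le_mul' le_rfl (measure_mono h3)).trans (h2.trans h1)
  have h5 : ENNReal.ofReal (t ^ (4 * d)) ≠ 0 := by
    rw [ENNReal.ofReal_ne_zero_iff]
    positivity
  have h6 : ENNReal.ofReal ((C / t) ^ (4 * d)) =
      ENNReal.ofReal (C ^ (4 * d)) / ENNReal.ofReal (t ^ (4 * d)) := by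
    rw [div_pow, ENNReal.ofReal_div_of_pos (by positivity)]
  rw [h6, ENNReal.le_div_iff_mul_le (Or.inl h5) (Or.inl ENNReal.ofReal_ne_top), mul_comm]
  exact h4

/-- REG. -/
theorem reg (huch : UchStmt) : RegStmt := by
  classical
  intro d R B τ p hd hB hτ hp
  obtain ⟨C, hC, hU⟩ := huch d (4 * d) B hd le_rfl hB
  set K : ℝ := 8 * B with hK
  have hK0 : 0 < K := by positivity
  have hsmall := poly_small (3 * d + 1) (μ := τ / 3) (by positivity) 1
    (((R : ℝ) + 1) ^ (3 * d + 1) * K) (q := p / 4) (by positivity)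
  have hsmall2 : ∀ᶠ L : ℕ in atTop, (2 * (R : ℝ) + 1) ^ d * (C / τ) ^ (4 * d) / L ≤ p / 4 :=
    ((tendsto_const_div_atTop_nhds_zero_nat _).eventually
      (eventually_lt_nhds (by positivity : (0 : ℝ) < p / 4))).mono fun _ h => h.le
  obtain ⟨L₀, hL₀⟩ := eventually_atTop.1 (hsmall.and (hsmall2.and (eventually_ge_atTop 1)))
  refine ⟨L₀, fun σ E N W L a hpar hL hW ha => ?_⟩
  obtain ⟨hn1, hn2, hL1⟩ := hL₀ L hL
  obtain ⟨hE, hσB, hσ1⟩ := hpar
  have hσ : σ ≠ 0 := by
    rintro rfl
    rw [abs_zero, mul_zero] at hσ1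
    linarith
  have hσp : 0 < |σ| := abs_pos.2 hσ
  have hν := bddDens_gl hσ
  set ρ : ℝ := 1 / |σ| with hρd
  have hρ := hν.1
  have hρB : ρ ≤ B := by
    rw [hρd, div_le_iff₀ hσp]
    exact hσ1
  obtain ⟨_, _, hF⟩ := Pool.Agent.LE.H54.fmn d σ E hd hσ
  have hLr : (1 : ℝ) ≤ L := by exact_mod_cast hL1
  have hWr : (W : ℝ) ≤ R * L := by exact_mod_cast hW
  have hR0 : (0 : ℝ) ≤ R := Nat.cast_nonneg R
  set A := box a W with hA
  have haA : A ⊆ box 0 N := (box_mono a (by omega)).trans ha
  set T : ℝ := Real.exp (τ * L) with hT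
  have hTpos : 0 < T := Real.exp_pos _
  obtain ⟨q, hq⟩ : ∃ q : ℝ, q = K * Real.exp (-(τ / 3) * L) := ⟨_, rfl⟩
  have hq0 : 0 ≤ q := by rw [hq]; positivity
  obtain ⟨S, hS⟩ : ∃ S : ℝ, S = ((R : ℝ) + 1) * (2 * L + 1) := ⟨_, rfl⟩
  have hRL : 0 ≤ (R : ℝ) * L := by positivity
  have hSW : 2 * (W : ℝ) + 1 ≤ S := by rw [hS]; nlinarith
  have hSL : 2 * (L : ℝ) + 1 ≤ S := by rw [hS]; nlinarith
  have hS1 : 1 ≤ S := by linarith
  have hnum : S ^ (3 * d + 1) * q ≤ p / 4 := by
    refine le_trans (le_of_eq ?_) hn1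
    rw [hS, hq, mul_pow]
    ring
  have hTe : 6 * ρ / T ≤ q := by
    rw [div_eq_mul_inv, hT, ← Real.exp_neg, hq]
    apply mul_le_mul
    · rw [hK]
      linarith
    · rw [Real.exp_le_exp]
      have : 0 ≤ τ * L := by positivity
      linarith
    · positivity
    · positivity
  have hCe : 8 * ρ * Real.exp (-(τ * L) / 3) ≤ q := by
    rw [show -(τ * (L : ℝ)) / 3 = -(τ / 3) * L by ring, hq]
    apply mul_le_mul_of_nonneg_right _ (Real.exp_pos _).le
    rw [hK]
    linarith
  have hcA : (A.card : ℝ) ≤ S ^ d := by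
    rw [hA, card_box]
    push_cast
    exact pow_le_pow_left₀ (by positivity) hSW _
  set M0 : Set (Site d → ℝ) := {V | (RM V (box 0 N) E).det = 0} with hM0
  set M1 : Set (Site d → ℝ) := ⋃ z ∈ A ×ˢ A, {V | gr V (box 0 N) E z.1 z.2 = 0} with hM1
  set M2 : Set (Site d → ℝ) := ⋃ z ∈ A ×ˢ A, {V | T < |gr V (box 0 N) E z.1 z.2|} with hM2
  set M3 : Set (Site d → ℝ) := ⋃ z ∈ A ×ˢ (A ×ˢ A),
    {V | Real.exp (τ * L) * |gr V (box 0 N) E z.1 z.2.2| <
      |gr V (box 0 N) E z.1 z.2.1| * |gr V (box 0 N) E z.2.1 z.2.2|} with hM3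
  set I : Finset (ℕ × Site d) := Finset.range (L + 1) ×ˢ A with hI
  set M4 : Set (Site d → ℝ) := ⋃ i ∈ I, {V | (RM V (box i.2 i.1) E).det = 0} with hM4
  set M5 : Set (Site d → ℝ) := ⋃ i ∈ I, ⋃ z ∈ box i.2 i.1 ×ˢ box i.2 i.1,
    {V | T < |gr V (box i.2 i.1) E z.1 z.2|} with hM5
  set M6 : Set (Site d → ℝ) := ⋃ x ∈ A, {V | τ * L < DL (box 0 N) E V x x} with hM6
  have hnull : ∀ Λ : Finset (Site d), PP d (gl σ) {V | (RM V Λ E).det = 0} = 0 := by
    intro Λ
    have h1 : Pool.Agent.Mob.H75.Loc {V : Site d → ℝ | (RM V Λ E).det = 0} Λ := by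
      intro V V' h
      rw [Set.mem_ofPred_eq, Set.mem_ofPred_eq, RM_congr h]
    exact le_antisymm ((Pool.Agent.Mob.H75.PP_le_PL h1).trans (PL_det hν _ _ le_rfl E).le) zero_le
  have hweak : ∀ (Λ : Finset (Site d)) (x y : Site d),
      PP d (gl σ) {V | T < |gr V Λ E x y|} ≤ ENNReal.ofReal q := by
    intro Λ x y
    have h1 : Pool.Agent.Mob.H75.Loc {V : Site d → ℝ | T < |gr V Λ E x y|} Λ := by
      intro V V' h
      rw [Set.mem_ofPred_eq, Set.mem_ofPred_eq, gr_congr h]
    exact ((Pool.Agent.Mob.H75.PP_le_PL h1).trans (PL_weak hν _ E x y hTpos)).trans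
      (ENNReal.ofReal_le_ofReal hTe)
  have p0 : PP d (gl σ) M0 = 0 := hnull _
  have p1 : PP d (gl σ) M1 = 0 := by
    refine le_antisymm ((measure_biUnion_finset_le _ _).trans
      (le_of_eq (Finset.sum_eq_zero fun z hz => ?_))) zero_le
    have hz' := Finset.mem_product.1 hz
    exact (hF N).2 z.1 (haA hz'.1) z.2 (haA hz'.2)
  have p4 : PP d (gl σ) M4 = 0 := by
    exact le_antisymm ((measure_biUnion_finset_le _ _).trans
      (le_of_eq (Finset.sum_eq_zero fun s _ => hnull _))) zero_le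
  have hpow : ∀ k : ℕ, k ≤ 3 * d + 1 → S ^ k ≤ S ^ (3 * d + 1) := by
    intro k hk
    exact pow_le_pow_right₀ hS1 hk
  have hS0 : 0 ≤ S := by linarith
  have p2 : PP d (gl σ) M2 ≤ ENNReal.ofReal (p / 4) := by
    apply union_le (q := q)
    · intro z _
      exact hweak _ _ _
    · refine le_trans ?_ hnum
      apply mul_le_mul_of_nonneg_right _ hq0
      rw [Finset.card_product]
      push_cast
      calc (A.card : ℝ) * A.card ≤ S ^ d * S ^ d := by gcongr
        _ = S ^ (2 * d) := by rw [← pow_add]; congr 1; ring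
        _ ≤ S ^ (3 * d + 1) := hpow _ (by omega)
  have p3 : PP d (gl σ) M3 ≤ ENNReal.ofReal (p / 4) := by
    apply union_le (q := q)
    · intro z hz
      rw [Finset.mem_product, Finset.mem_product] at hz
      have h1 : Pool.Agent.Mob.H75.Loc {V : Site d → ℝ |
          Real.exp (τ * L) * |gr V (box 0 N) E z.1 z.2.2| <
            |gr V (box 0 N) E z.1 z.2.1| * |gr V (box 0 N) E z.2.1 z.2.2|} (box 0 N) := by
        intro V V' h
        rw [Set.mem_ofPred_eq, Set.mem_ofPred_eq, gr_congr h, gr_congr h, gr_congr h]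
      refine (Pool.Agent.Mob.H75.PP_le_PL h1).trans ?_
      refine (H42.oneTail hν E (box 0 N) z.1 z.2.1 z.2.2 (τ * L) (haA hz.1) (haA hz.2.1)
        (haA hz.2.2) (by positivity)).trans ?_
      exact ENNReal.ofReal_le_ofReal hCe
    · refine le_trans ?_ hnum
      apply mul_le_mul_of_nonneg_right _ hq0
      rw [Finset.card_product, Finset.card_product]
      push_cast
      calc (A.card : ℝ) * (A.card * A.card) ≤ S ^ d * (S ^ d * S ^ d) := by gcongr
        _ = S ^ (3 * d) := by rw [← pow_add, ← pow_add]; congr 1; ring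
        _ ≤ S ^ (3 * d + 1) := hpow _ (by omega)
  have p5 : PP d (gl σ) M5 ≤ ENNReal.ofReal (p / 4) := by
    apply union_le (q := S ^ (2 * d) * q)
    · intro i hi
      apply union_le (q := q)
      · intro z _
        exact hweak _ _ _
      · apply mul_le_mul_of_nonneg_right _ hq0
        rw [Finset.card_product, card_box]
        push_cast
        rw [← pow_add, show d + d = 2 * d by ring]
        apply pow_le_pow_left₀ (by positivity)
        rw [hI, Finset.mem_product, Finset.mem_range] at hi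
        have h3 : (i.1 : ℝ) ≤ L := by
          have : i.1 ≤ L := by omega
          exact_mod_cast this
        linarith
    · refine le_trans ?_ hnum
      rw [hI, Finset.card_product, Finset.card_range]
      push_cast
      calc ((L : ℝ) + 1) * A.card * (S ^ (2 * d) * q)
          ≤ S * S ^ d * (S ^ (2 * d) * q) := by
            gcongr
            linarith
        _ = S ^ (3 * d + 1) * q := by
            rw [show 3 * d + 1 = 1 + d + 2 * d by ring, pow_add, pow_add, pow_one]
            ring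
  have p6 : PP d (gl σ) M6 ≤ ENNReal.ofReal (p / 4) := by
    apply union_le (q := (C / (τ * L)) ^ (4 * d))
    · intro x hx
      have hx1 : box x 1 ⊆ box 0 N := by
        refine subset_trans ?_ ha
        intro z hz
        rw [mem_box] at hz ⊢
        rw [hA, mem_box] at hx
        have := sd_triangle a x z
        omega
      have h1 := hU σ E ⟨hE, hσB, hσ1⟩ N 1 x le_rfl hx1
      rw [Nat.cast_one, mul_one] at h1
      exact diag_tail hC (by positivity) ((hF N).1.meas x x) h1
    · refine le_trans ?_ hn2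
      have h1 : (A.card : ℝ) ≤ ((2 * R + 1) * L) ^ d := by
        rw [hA, card_box]
        push_cast
        apply pow_le_pow_left₀ (by positivity)
        nlinarith
      have h2 : (C / (τ * L)) ^ (4 * d) = (C / τ) ^ (4 * d) / L ^ (4 * d) := by
        rw [← div_pow]
        congr 1
        field_simp
      rw [h2]
      have h3 : (0 : ℝ) < L := by linarith
      calc (A.card : ℝ) * ((C / τ) ^ (4 * d) / L ^ (4 * d))
          ≤ ((2 * R + 1) * L) ^ d * ((C / τ) ^ (4 * d) / L ^ (4 * d)) := by gcongr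
        _ = (2 * (R : ℝ) + 1) ^ d * (C / τ) ^ (4 * d) * ((L : ℝ) ^ d / L ^ (4 * d)) := by
            rw [mul_pow]
            ring
        _ ≤ (2 * (R : ℝ) + 1) ^ d * (C / τ) ^ (4 * d) * (1 / L) := by
            apply mul_le_mul_of_nonneg_left _ (by positivity)
            rw [div_le_div_iff₀ (by positivity) h3, one_mul, ← pow_succ]
            exact pow_le_pow_right₀ hLr (by omega)
        _ = (2 * (R : ℝ) + 1) ^ d * (C / τ) ^ (4 * d) / L := by ring
  have hincl : {V : Site d → ℝ | ¬ RegE V N W L a E (τ * L)} ⊆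
      (M0 ∪ M1 ∪ M4) ∪ (M2 ∪ (M3 ∪ (M5 ∪ M6))) := by
    intro V hV
    by_contra hcon
    simp only [Set.mem_union, not_or] at hcon
    obtain ⟨⟨⟨c0, c1⟩, c4⟩, c2, c3, c5, c6⟩ := hcon
    apply hV
    have hg0 : ∀ x ∈ A, ∀ y ∈ A, gr V (box 0 N) E x y ≠ 0 := by
      intro x hx y hy h0
      apply c1
      rw [hM1]
      simp only [Set.mem_iUnion, exists_prop]
      exact ⟨(x, y), Finset.mem_product.2 ⟨hx, hy⟩, h0⟩
    refine ⟨c0, fun x hx y hy => ⟨hg0 x hx y hy, ?_⟩, ?_, ?_, ?_⟩
    · by_contra h0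
      rw [not_le] at h0
      apply c2
      rw [hM2]
      simp only [Set.mem_iUnion, exists_prop]
      exact ⟨(x, y), Finset.mem_product.2 ⟨hx, hy⟩, h0⟩
    · intro x hx u hu y hy
      apply H59.dl_le (hg0 x hx y hy) (hg0 x hx u hu) (hg0 u hu y hy)
      by_contra h0
      rw [not_le] at h0
      apply c3
      rw [hM3]
      simp only [Set.mem_iUnion, exists_prop]
      exact ⟨(x, (u, y)), Finset.mem_product.2 ⟨hx, Finset.mem_product.2 ⟨hu, hy⟩⟩, h0⟩
    · intro x hx
      by_contra h0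
      rw [not_le] at h0
      apply c6
      rw [hM6]
      simp only [Set.mem_iUnion, exists_prop]
      exact ⟨x, hx, h0⟩
    · intro r hr b hb
      have hmem : (r, b) ∈ I := by
        rw [hI, Finset.mem_product, Finset.mem_range]
        exact ⟨by simp only; omega, hb⟩
      refine ⟨fun h0 => ?_, fun x y => ?_⟩
      · apply c4
        rw [hM4]
        simp only [Set.mem_iUnion, exists_prop]
        exact ⟨(r, b), hmem, h0⟩
      · by_cases hxy : x ∈ box b r ∧ y ∈ box b r
        · by_contra h0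
          rw [not_le] at h0
          apply c5
          rw [hM5]
          simp only [Set.mem_iUnion, exists_prop]
          exact ⟨(r, b), hmem, (x, y), Finset.mem_product.2 hxy, h0⟩
        · unfold gr
          rw [dif_neg hxy, abs_zero]
          exact hTpos.le
  refine (measure_mono hincl).trans ?_
  refine (measure_union_le _ _).trans ?_
  have hz : PP d (gl σ) (M0 ∪ M1 ∪ M4) = 0 := measure_union_null (measure_union_null p0 p1) p4
  rw [hz, zero_add]
  refine (measure_union_le _ _).trans ?_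
  refine (add_le_add p2 ((measure_union_le _ _).trans (add_le_add p3
    ((measure_union_le _ _).trans (add_le_add p5 p6))))).trans ?_
  rw [← ENNReal.ofReal_add (by positivity) (by positivity),
    ← ENNReal.ofReal_add (by positivity) (by positivity),
    ← ENNReal.ofReal_add (by positivity) (by positivity)]
  apply ENNReal.ofReal_le_ofReal
  linarith

end Pool.Agent.LE.H76C
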