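import Pool.Agent.LE.StmtsC
import Pool.Agent.Helper42_LE.Msd

/-!
# UPA: on the good event the decay in the cubes of radius `L₁` gives decay in the cubes of
radius `K L₁`
-/

set_option autoImplicit false

open MeasureTheory ProbabilityTheory Function Filter

open scoped ENNReal BigOperators Topology

noncomputable section

namespace Pool.Agent.LE.H76C

open Pool.Agent.Anderson Pool.Agent.Loc Pool.Agent.Mob Pool.Agent.Helper54.Bal
  Pool.Agent.Helper96.EXP

variable {d : ℕ}

/-- expansions when all cubes are good -/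
theorem chain {V : Site d → ℝ} {E m q T : ℝ} {L M : ℕ} {s u : Site d} (hL : 1 ≤ L)
    (hT : 0 ≤ T) (hqq : 2 * d * (3 * L) ^ d * Real.exp (-m * L) ≤ q)
    (hdet : (RM V (box s M) E).det ≠ 0) (hbd : ∀ x y, |gr V (box s M) E x y| ≤ T)
    (hgood : ∀ v ∈ box s M, SG V L m E v) (hsu : sd s u = M) :
    ∀ (n : ℕ) (v : Site d), sd s v + n * (L + 1) ≤ M → |gr V (box s M) E v u| ≤ q ^ n * T := by
  have hL' : (1 : ℝ) ≤ L := by exact_mod_cast hL
  have hq0 : 0 ≤ q := le_trans (by positivity) hqq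
  intro n
  induction n with
  | zero =>
    intro v _
    rw [pow_zero, one_mul]
    exact hbd v u
  | succ n ih =>
    intro v hvM
    have hexp : (n + 1) * (L + 1) = n * (L + 1) + (L + 1) := by ring
    rw [hexp] at hvM
    have hv := hgood v (mem_box.2 (by omega))
    have hA : box v L ⊆ box s M := by
      intro z hz
      rw [mem_box] at hz
      rw [mem_box]
      have := sd_triangle s v z
      omega
    have huA : u ∈ box s M \ box v L := by
      rw [Finset.mem_sdiff, mem_box, mem_box, hsu]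
      refine ⟨le_rfl, fun hc => ?_⟩
      have := sd_triangle s v u
      omega
    have hw : 0 ≤ q ^ n * T := by positivity
    have key := H42.geo_bound (α := Real.exp (-m * L)) (β := q ^ n * T) hA hdet hv.1
      (mem_box.2 (by rw [sd_self]; omega)) huA (by positivity) hw (by
        intro b hb b' hb' hne
        have h8 := sd_of_hop hne
        rw [mem_box] at hb
        rw [Finset.mem_sdiff, mem_box, mem_box] at hb'
        have h9 := sd_triangle v b b'
        refine ⟨hv.2 b (by omega), ih b' ?_⟩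
        have h10 := sd_triangle s v b'
        omega)
    have hcard : ((box v L).card : ℝ) ≤ (3 * L) ^ d := by
      rw [card_box]
      push_cast
      gcongr
      linarith
    calc |gr V (box s M) E v u|
        ≤ Real.exp (-m * L) * (2 * d * (box v L).card) * (q ^ n * T) := key
      _ ≤ Real.exp (-m * L) * (2 * d * (3 * L) ^ d) * (q ^ n * T) := by gcongr
      _ = (2 * d * (3 * L) ^ d * Real.exp (-m * L)) * (q ^ n * T) := by ring
      _ ≤ q * (q ^ n * T) := by gcongr
      _ = q ^ (n + 1) * T := by ring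

/-- polynomials are smaller than exponentials -/
theorem poly_exp (d : ℕ) {b : ℝ} (hb : 0 < b) :
    ∃ L₀ : ℕ, ∀ L : ℕ, L₀ ≤ L → 2 * d * (3 * (L : ℝ)) ^ d ≤ Real.exp (b * L) := by
  have h1 : Tendsto (fun x : ℝ => x ^ d / Real.exp (b * x)) atTop (𝓝 0) :=
    (isLittleO_pow_exp_pos_mul_atTop (k := d) hb).tendsto_div_nhds_zero
  have h2 : Tendsto (fun L : ℕ => (2 * d * 3 ^ d : ℝ) * ((L : ℝ) ^ d / Real.exp (b * L))) atTop
      (𝓝 ((2 * d * 3 ^ d : ℝ) * 0)) :=
    (h1.comp tendsto_natCast_atTop_atTop).const_mul _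
  rw [mul_zero] at h2
  have h3 := h2.eventually (gt_mem_nhds (zero_lt_one : (0 : ℝ) < 1))
  obtain ⟨L₀, hL₀⟩ := eventually_atTop.1 h3
  refine ⟨L₀, fun L hL => ?_⟩
  have h4 := hL₀ L hL
  have h5 : 0 < Real.exp (b * L) := Real.exp_pos _
  have h6 : (2 * d * 3 ^ d : ℝ) * ((L : ℝ) ^ d / Real.exp (b * L)) =
      2 * d * (3 * (L : ℝ)) ^ d / Real.exp (b * L) := by
    rw [mul_pow]
    ring
  rw [h6, div_lt_one h5] at h4
  exact h4.le

/-- UPA. -/
theorem upa (hdtu : DtuStmt) : UpaStmt := by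
  intro d η κ' K hd hη hκ hK hηK
  obtain ⟨L₁, hL₁⟩ := hdtu d η K hd hη (by omega)
  obtain ⟨L₂, hL₂⟩ := poly_exp d (b := κ' / 16) (by positivity)
  refine ⟨L₁ + L₂ + K, ?_⟩
  intro V N Q₁ ℓ a E hQ₁ hℓ hL hbox hG hSG b hb
  have ha0 : a + sm ℓ 0 = a := by
    funext j
    simp [sm]
  have hall := hL₁ κ' V N Q₁ ℓ a E hQ₁ hℓ (by omega) hbox hG 0
    (mem_box.2 (by rw [sd_self]; omega)) (by rw [ha0]; exact hSG)
  set L := Q₁ * ℓ with hLdef
  have hKL : K * Q₁ * ℓ = K * L := by rw [hLdef, mul_assoc]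
  rw [hKL] at hall hb ⊢
  have hL1 : 1 ≤ L := Nat.mul_pos hQ₁ hℓ
  have hLr : (1 : ℝ) ≤ L := by exact_mod_cast hL1
  have hKr : (8 : ℝ) ≤ K := by exact_mod_cast hK
  have hgood : ∀ v ∈ box b (K * L), SG V L (κ' / 2) E v := by
    intro v hv
    have h1 := hall v (by
      rw [mem_box] at hv hb ⊢
      have := sd_triangle a b v
      omega)
    refine ⟨h1.1, fun u hu => (h1.2 u hu).trans ?_⟩
    rw [Real.exp_le_exp]
    have : κ' / 2 ≤ κ' - 12 * η * K := by linarith
    nlinarith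
  have hreg := hG.2.2.2.2.2 (K * L) hKL.ge b (by
    rw [hKL]
    rw [mem_box] at hb ⊢
    omega)
  set T := Real.exp (η * (((K * Q₁ : ℕ) : ℝ) * ℓ)) with hTdef
  have hT : T ≤ Real.exp (κ' / 24 * L) := by
    rw [hTdef, Real.exp_le_exp]
    have e1 : ((K * Q₁ : ℕ) : ℝ) * ℓ = K * L := by
      rw [hLdef]
      push_cast
      ring
    rw [e1]
    nlinarith
  refine ⟨hreg.1, fun u hu => ?_⟩
  have hq : 2 * d * (3 * (L : ℝ)) ^ d * Real.exp (-(κ' / 2) * L) ≤
      Real.exp (-(7 / 16 * κ') * L) := by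
    calc 2 * d * (3 * (L : ℝ)) ^ d * Real.exp (-(κ' / 2) * L)
        ≤ Real.exp (κ' / 16 * L) * Real.exp (-(κ' / 2) * L) := by
          gcongr
          exact hL₂ L (by omega)
      _ = Real.exp (-(7 / 16 * κ') * L) := by
          rw [← Real.exp_add]
          congr 1
          ring
  have key := chain hL1 (Real.exp_pos _).le hq hreg.1 hreg.2 hgood hu (K - 1) b (by
    rw [sd_self, zero_add]
    obtain ⟨k, hk⟩ : ∃ k, K = k + 1 := ⟨K - 1, by omega⟩
    rw [hk, Nat.add_sub_cancel]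
    have : k ≤ L := by omega
    nlinarith)
  refine key.trans ?_
  have hKm : ((K - 1 : ℕ) : ℝ) = K - 1 := by
    rw [Nat.cast_sub (by omega), Nat.cast_one]
  calc Real.exp (-(7 / 16 * κ') * L) ^ (K - 1) * T
      ≤ Real.exp (-(7 / 16 * κ') * L) ^ (K - 1) * Real.exp (κ' / 24 * L) := by gcongr
    _ = Real.exp ((K - 1) * (-(7 / 16 * κ') * L) + κ' / 24 * L) := by
        rw [← Real.exp_nat_mul, hKm, ← Real.exp_add]
    _ ≤ Real.exp (-(κ' / 4) * ((K * L : ℕ) : ℝ)) := by
        rw [Real.exp_le_exp]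
        push_cast
        have h1 : 0 ≤ κ' * L := by positivity
        have h2 : 0 ≤ (κ' * L) * (K - 8) := mul_nonneg h1 (by linarith)
        nlinarith

end Pool.Agent.LE.H76C
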